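import Mathlib
import Pool.Agent.H350R3.GR.Glue
import Pool.Agent.H350R3.GR.Beta

set_option autoImplicit false

/-!
# Nef classes on the boundary of the positive cone

Let `L` be the list of the sides of the squares in the Euclidean subdivision of the rectangle with
sides `A` and `B`. For very general points the class `√(A B) H - ∑ L_j E_{g j}`, of self-intersection
zero, is nef if `√(A / B)` lies in the set `Root δ`, `δ ≥ 2`, and positive on all plane curves if
`δ ≥ 4`. These sets contain all fractions `p / q` with `p ≥ q ^ 2`, `q ≥ 2`. The classes so obtained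
can be composed (a point may be replaced by a group of points). For all `A` and `B` the class
is nef up to a factor `1 + (A / B) ^ (-k)`, `k` arbitrary, if `A / B` is large, and up to a factor
`1 + 1 / (2 ⌊√(A / B)⌋ ^ 2)` if `A ≥ 4 B`.
-/

namespace Pool.Agent.Results.MP_309968_ag.BoundaryRays

open Pool.Agent.H932R3 Pool.Agent.H350R3 Pool.Agent.H350R3.GR

/-- `MultGE a F m`: the form `F` has multiplicity at least `m` at the point `(a 0 : a 1 : 1)`. -/
def MultGE (a : Fin 2 → ℂ) (F : MvPolynomial (Fin 3) ℂ) (m : ℕ) : Prop :=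
  ∀ s ∈ (MvPolynomial.aeval
    ![(MvPolynomial.X 0 : MvPolynomial (Fin 2) ℂ) + MvPolynomial.C (a 0),
      (MvPolynomial.X 1 : MvPolynomial (Fin 2) ℂ) + MvPolynomial.C (a 1),
      (1 : MvPolynomial (Fin 2) ℂ)] F).support, m ≤ s 0 + s 1

/-- The classes (in the coordinates degree, multiplicities) of the irreducible curves on the
blow-up of the plane at the points `p i = (p i 0 : p i 1 : 1)`: the class `(d; m)` of the proper
transform of an irreducible plane curve `F = 0` of degree `d` whose multiplicity at `p i` is exactly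
`m i`, and the classes `(0; -e_i)` of the exceptional curves. -/
def curveClasses {n : ℕ} (p : Fin n → Fin 2 → ℂ) : Set (ℝ × (Fin n → ℝ)) :=
  {v : ℝ × (Fin n → ℝ) | ∃ (F : MvPolynomial (Fin 3) ℂ) (d : ℕ) (m : Fin n → ℕ),
      F.IsHomogeneous d ∧ Irreducible F ∧
      (∀ i : Fin n, MultGE (p i) F (m i) ∧ ¬ MultGE (p i) F (m i + 1)) ∧
      v = ((d : ℝ), fun i => (m i : ℝ))} ∪
    {v : ℝ × (Fin n → ℝ) | ∃ i : Fin n,
      v = ((0 : ℝ), (Pi.single i (-1 : ℝ) : Fin n → ℝ))}

/-- The closed cone of curves. -/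
def curvCone {n : ℕ} (p : Fin n → Fin 2 → ℂ) : Set (ℝ × (Fin n → ℝ)) :=
  closure ((Submodule.span {c : ℝ // 0 ≤ c} (curveClasses p) : Set (ℝ × (Fin n → ℝ))))

/-- The numbers obtained from the integer `δ` by repeatedly replacing a number `α` with a quotient
`ρ / α` for an integer `ρ ≥ α ^ 2`. -/
inductive Root (δ : ℕ) : ℝ → Prop
  | base : Root δ δ
  | step (α : ℝ) (ρ : ℕ) : Root δ α → α ^ 2 ≤ ρ → Root δ (ρ / α)

/-- `Sharp k L c`: the class `c H - ∑ L_j E_j` is obtained from the classes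
`√(A B) H - ∑ m_j E_j`, where `m` are the sides of the squares in the Euclidean subdivision of the
rectangle with sides `A` and `B` and `√(A / B)` lies in `Root δ` for some `δ ≥ k ≥ 2`, by scaling
and by replacing a coefficient `w` by the coefficients of a class `w H - ∑ L'_j E_j` with
`Sharp 2 L' w`. -/
inductive Sharp : ℕ → List ℝ → ℝ → Prop
  | euclid (k A B δ : ℕ) (L : List ℕ) : 0 < A → 0 < B → 2 ≤ k → k ≤ δ →
      Root δ (Real.sqrt ((A : ℝ) / B)) → Mult A B L →
      Sharp k (L.map fun m : ℕ => (m : ℝ)) (Real.sqrt (A * B))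
  | scale (k : ℕ) (a c : ℝ) (L : List ℝ) : 0 < a → Sharp k L c →
      Sharp k (L.map fun t => a * t) (a * c)
  | glue (k : ℕ) (c w : ℝ) (L₁ L₂ L' : List ℝ) : Sharp k (L₁ ++ [w] ++ L₂) c → Sharp 2 L' w →
      Sharp k (L₁ ++ L' ++ L₂) c

theorem Root.reach {δ : ℕ} (hδ : 2 ≤ δ) {α : ℝ} (h : Root δ α) : 0 < α ∧ Reach δ (α ^ 2) := by
  induction h with
  | base => exact ⟨by exact_mod_cast (show 0 < δ by omega), Reach.base⟩
  | step α ρ _ hρ ih =>
    obtain ⟨h0, hr⟩ := ih
    have hρ0 : (0 : ℝ) < ρ := lt_of_lt_of_le (by positivity) hρ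
    refine ⟨by positivity, ?_⟩
    rw [div_pow]
    exact Reach.step _ ρ hr hρ

theorem mult_swap_ones (k : ℕ) : Mult 1 k (List.replicate k 1) := by
  induction k with
  | zero => exact Mult.left 1
  | succ k ih =>
    rw [List.replicate_succ]
    exact Mult.small 1 (k + 1) _ one_pos (by omega) (by rw [Nat.add_sub_cancel]; exact ih)

theorem mult_half (j : ℕ) : Mult (4 * j + 1) 4 (List.replicate j 4 ++ List.replicate 4 1) := by
  induction j with
  | zero =>
    rw [List.replicate_zero, List.nil_append]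
    exact mult_swap_ones 4
  | succ j ih =>
    rw [List.replicate_succ, List.cons_append]
    refine Mult.big _ 4 _ (by norm_num) (by omega) ?_
    have : 4 * (j + 1) + 1 - 4 = 4 * j + 1 := by omega
    rw [this]
    exact ih

theorem degree_pos {F : MvPolynomial (Fin 3) ℂ} {d : ℕ} (hFd : F.IsHomogeneous d)
    (hirr : Irreducible F) : 0 < d := by
  rcases Nat.eq_zero_or_pos d with rfl | hd
  · exfalso
    have h1 : F.totalDegree = 0 := by
      have := hFd.totalDegree_le
      omega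
    rw [MvPolynomial.totalDegree_eq_zero_iff_eq_C] at h1
    rw [h1] at hirr
    by_cases h2 : MvPolynomial.coeff 0 F = 0
    · rw [h2, map_zero] at hirr
      exact hirr.ne_zero rfl
    · exact hirr.not_isUnit ((isUnit_iff_ne_zero.2 h2).map MvPolynomial.C)
  · exact hd

theorem cone_le {n r : ℕ} {p : Fin n → Fin 2 → ℂ} {l : Fin r → ℝ} {g : Fin r → Fin n} {c : ℝ}
    (hl : ∀ j, 0 ≤ l j)
    (hc : ∀ (F : MvPolynomial (Fin 3) ℂ) (e : ℕ) (m : Fin n → ℕ), F.IsHomogeneous e → 0 < e →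
      F ≠ 0 → (∀ i, MultGE (p i) F (m i)) → ∑ j, l j * (m (g j) : ℝ) ≤ e * c) :
    ∀ x ∈ curvCone p, ∑ j, l j * x.2 (g j) ≤ c * x.1 := by
  intro x hx
  have hgen : ∀ v ∈ curveClasses p, ∑ j, l j * v.2 (g j) ≤ c * v.1 := by
    rintro v (⟨F, d, m, hFd, hirr, hm, rfl⟩ | ⟨i, rfl⟩)
    · have h1 := hc F d m hFd (degree_pos hFd hirr) hirr.ne_zero fun i => (hm i).1
      simp only
      linarith
    · simp only [mul_zero]
      refine Finset.sum_nonpos fun j _ => ?_
      refine mul_nonpos_of_nonneg_of_nonpos (hl j) ?_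
      by_cases hji : g j = i
      · rw [hji, Pi.single_eq_same]
        norm_num
      · rw [Pi.single_eq_of_ne hji]
  have hspan : ∀ v ∈ Submodule.span {c : ℝ // 0 ≤ c} (curveClasses p),
      ∑ j, l j * v.2 (g j) ≤ c * v.1 := by
    intro v hv
    refine Submodule.span_induction ?_ ?_ ?_ ?_ hv
    · exact fun v hv => hgen v hv
    · simp
    · intro a b _ _ ha hb
      simp only [Prod.snd_add, Pi.add_apply, Prod.fst_add, mul_add, Finset.sum_add_distrib]
      linarith
    · rintro ⟨a, ha⟩ v _ hv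
      have h1 : (⟨a, ha⟩ : {c : ℝ // 0 ≤ c}) • v = a • v := rfl
      rw [h1]
      simp only [Prod.smul_snd, Pi.smul_apply, Prod.smul_fst, smul_eq_mul]
      have h2 : ∑ j, l j * (a * v.2 (g j)) = a * ∑ j, l j * v.2 (g j) := by
        rw [Finset.mul_sum]
        exact Finset.sum_congr rfl fun j _ => by ring
      rw [h2]
      have := mul_le_mul_of_nonneg_left hv ha
      linarith
  have hcl : IsClosed {v : ℝ × (Fin n → ℝ) | ∑ j, l j * v.2 (g j) ≤ c * v.1} := by
    refine isClosed_le ?_ ?_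
    · exact continuous_finsetSum _ fun j _ =>
        continuous_const.mul ((continuous_apply (g j)).comp continuous_snd)
    · exact continuous_const.mul continuous_fst
  exact closure_minimal (fun v hv => hspan v hv) hcl hx

theorem mult_pos {A B : ℕ} {L : List ℕ} (h : Mult A B L) : ∀ m ∈ L, 0 < m := by
  induction h with
  | left A => simp
  | right B => simp
  | big A B L hB _ _ ih =>
    intro m hm
    rcases List.mem_cons.1 hm with rfl | hm
    · exact hB
    · exact ih m hm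
  | small A B L hA _ _ ih =>
    intro m hm
    rcases List.mem_cons.1 hm with rfl | hm
    · exact hA
    · exact ih m hm

theorem sqrt_mul_eq {A B : ℕ} (hB : 0 < B) :
    Real.sqrt ((A : ℝ) * B) = B * Real.sqrt ((A : ℝ) / B) := by
  have hB' : (0 : ℝ) < B := by exact_mod_cast hB
  have h1 : ((A : ℝ) * B) = (B : ℝ) ^ 2 * ((A : ℝ) / B) := by
    field_simp
  rw [h1, Real.sqrt_mul (by positivity), Real.sqrt_sq hB'.le]

theorem Sharp.props {k : ℕ} {L : List ℝ} {c : ℝ} (h : Sharp k L c) :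
    0 < c ∧ (∀ t ∈ L, 0 < t) ∧ (L.map fun t => t ^ 2).sum = c ^ 2 ∧ NB.Nf ℂ L.get c ∧
      (4 ≤ k → NB.NfS ℂ L.get c) := by
  induction h with
  | euclid k A B δ L hA hB hk hδ hR hL =>
    have hA' : (0 : ℝ) < A := by exact_mod_cast hA
    have hB' : (0 : ℝ) < B := by exact_mod_cast hB
    have ht : (0 : ℝ) < (A : ℝ) / B := by positivity
    have hreach : Reach δ ((A : ℝ) / B) := by
      have := (hR.reach (by omega)).2
      rwa [Real.sq_sqrt ht.le] at this
    have hc : (B : ℝ) * (Real.sqrt ((A : ℝ) / B) * max 1 (((A : ℝ) / B) / ((A : ℝ) / B))) ≤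
        Real.sqrt (A * B) := by
      refine le_of_eq ?_
      rw [div_self ht.ne', max_self, mul_one, sqrt_mul_eq hB]
    refine ⟨Real.sqrt_pos.2 (by positivity), ?_, ?_, ?_, fun h4 => ?_⟩
    · intro t ht'
      obtain ⟨m, hm, rfl⟩ := List.mem_map.1 ht'
      exact_mod_cast mult_pos hL m hm
    · rw [Real.sq_sqrt (by positivity), List.map_map]
      have h1 := hL.sum_sq
      have h2 : (((L.map fun m => m ^ 2).sum : ℕ) : ℝ) = ((A * B : ℕ) : ℝ) := by rw [h1]
      rw [Nat.cast_list_sum, List.map_map] at h2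
      push_cast at h2
      rw [← h2]
      congr 1
      refine List.map_congr_left fun m _ => ?_
      simp
    · exact nf_euclid hA hB (by omega) hreach hc hL
    · exact nfs_euclid hA hB (by omega) hreach hc hL
  | scale k a c L ha _ ih =>
    obtain ⟨h1, h2, h3, h4, h4s⟩ := ih
    refine ⟨mul_pos ha h1, ?_, ?_, nf_list_scale ha h4, fun hk => nfs_list_scale ha (h4s hk)⟩
    · intro t ht
      obtain ⟨u, hu, rfl⟩ := List.mem_map.1 ht
      exact mul_pos ha (h2 u hu)
    · rw [List.map_map, mul_pow, ← h3]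
      have h5 : ((fun t : ℝ => t ^ 2) ∘ fun t => a * t) = fun t => a ^ 2 * t ^ 2 := by
        funext t
        simp only [Function.comp_apply]
        ring
      rw [h5, List.sum_map_mul_left]
  | glue k c w L₁ L₂ L' _ _ ih ih' =>
    obtain ⟨h1, h2, h3, h4, h4s⟩ := ih
    obtain ⟨h1', h2', h3', h4', _⟩ := ih'
    have hL₁ : ∀ t ∈ L₁, 0 < t := fun t ht => h2 t (by simp [ht])
    have hL₂ : ∀ t ∈ L₂, 0 < t := fun t ht => h2 t (by simp [ht])
    refine ⟨h1, ?_, ?_, nf_list_glue hL₁ hL₂ h1' h4 h4',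
      fun hk => nfs_list_glue hL₁ hL₂ h1' (h4s hk) h4'⟩
    · intro t ht
      simp only [List.mem_append] at ht
      rcases ht with (ht | ht) | ht
      · exact hL₁ t ht
      · exact h2' t ht
      · exact hL₂ t ht
    · rw [← h3]
      simp only [List.map_append, List.sum_append, h3', List.map_cons, List.map_nil,
        List.sum_cons, List.sum_nil, add_zero]

theorem noForm_ext {n e : ℕ} {L : List ℝ} {g : Fin L.length → Fin n}
    (hg : Function.Injective g) {m : Fin n → ℕ} {x : Fin L.length → Fin 2 → ℂ}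
    (hx : NB.Emp (fun j => m (g j)) x e) :
    NoForm (ptJ (Function.extend g x 0) m) e := by
  refine (noForm_of_emp hx).anti ?_
  unfold ptJ vIdeal
  refine le_iInf fun j => ?_
  have h2 := iInf_le (fun a => H932R2.cIdeal
    (fun _ : Fin 1 => (Function.extend g x 0 : Fin n → Fin 2 → ℂ) a 0)
    (Polynomial.C ((Function.extend g x 0 : Fin n → Fin 2 → ℂ) a 1)) (m a)) (g j)
  simp only [hg.extend_apply] at h2
  exact h2

theorem result :
    (∀ p q : ℕ, 2 ≤ q → q ^ 2 ≤ p → Root q ((p : ℝ) / q)) ∧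
    (∀ A B : ℕ, ∃ L, Mult A B L) ∧
    (∀ j : ℕ, Mult ((2 * j + 1) ^ 2) (2 ^ 2)
      (List.replicate (j * (j + 1)) 4 ++ List.replicate 4 1)) ∧
    (∀ (k : ℕ) (L : List ℝ) (c : ℝ), Sharp k L c → (L.map fun t => t ^ 2).sum = c ^ 2) ∧
    ∃ N : ℕ → ℕ, ∀ n : ℕ, ∃ f : ℕ → MvPolynomial (Fin n × Fin 2) ℂ, (∀ k, f k ≠ 0) ∧
      ∀ p : Fin n → Fin 2 → ℂ,
        (∀ k, MvPolynomial.eval (fun q : Fin n × Fin 2 => p q.1 q.2) (f k) ≠ 0) →
        (∀ (k : ℕ) (L : List ℝ) (c : ℝ), Sharp k L c →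
          ∀ g : Fin L.length → Fin n, Function.Injective g →
          (∀ x ∈ curvCone p, ∑ j, L.get j * x.2 (g j) ≤ c * x.1) ∧
          (4 ≤ k → ∀ (F : MvPolynomial (Fin 3) ℂ) (e : ℕ) (m : Fin n → ℕ),
            F.IsHomogeneous e → 0 < e → F ≠ 0 → (∀ i, MultGE (p i) F (m i)) →
            ∑ j, L.get j * m (g j) < c * e)) ∧
        ∀ (A B : ℕ) (L : List ℕ), 0 < A → 0 < B → Mult A B L →
        ∀ g : Fin L.length → Fin n, Function.Injective g →
          (4 * B ≤ A → ∀ x ∈ curvCone p, ∑ j, (L.get j : ℝ) * x.2 (g j) ≤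
            (1 + 1 / (2 * (⌊Real.sqrt ((A : ℝ) / B)⌋₊ : ℝ) ^ 2)) * Real.sqrt (A * B) * x.1) ∧
          (∀ k : ℕ, N k * B ≤ A → ∀ x ∈ curvCone p, ∑ j, (L.get j : ℝ) * x.2 (g j) ≤
            (1 + 1 / ((A : ℝ) / B) ^ k) * Real.sqrt (A * B) * x.1) := by
  classical
  refine ⟨fun p q _ h => Root.step q p Root.base (by exact_mod_cast h), Mult.exists,
    fun j => ?_, fun k L c h => h.props.2.2.1, ?_⟩
  · have h1 : (2 * j + 1) ^ 2 = 4 * (j * (j + 1)) + 1 := by ring
    have h2 : (2 : ℕ) ^ 2 = 4 := rfl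
    rw [h1, h2]
    exact mult_half _
  choose N hN using beta_large
  refine ⟨N, fun n => ?_⟩
  obtain ⟨f, hf, hf'⟩ := exists_conds_all (K := ℂ) n
  refine ⟨f, hf, fun p hp => ⟨fun k L c hS g hg => ?_, fun A B L hA hB hL g hg => ?_⟩⟩
  · obtain ⟨_, hpos, _, hNf, hNfS⟩ := hS.props
    have hzero : ∀ (F : MvPolynomial (Fin 3) ℂ) (e : ℕ) (m : Fin n → ℕ), F.IsHomogeneous e →
        (∀ i, MultGE (p i) F (m i)) →
        (∃ x : Fin L.length → Fin 2 → ℂ, NB.Emp (fun j => m (g j)) x e) → F = 0 := by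
      rintro F e m hF hm ⟨x, hx⟩
      refine hf' p hp e m ⟨_, noForm_ext hg hx⟩ F hF ?_
      unfold ptJ vIdeal
      rw [Ideal.mem_iInf]
      intro i
      exact mem_of_support (p := p i) (hm i)
    refine ⟨cone_le (fun j => (hpos _ (List.get_mem L j)).le) fun F e m hF he hF0 hm => ?_,
      fun hk F e m hF he hF0 hm => ?_⟩
    · by_contra hcon
      push Not at hcon
      exact hF0 (hzero F e m hF hm (hNf (fun j => m (g j)) e (by linarith)))
    · by_contra hcon
      push Not at hcon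
      exact hF0 (hzero F e m hF hm (hNfS hk (fun j => m (g j)) e he hcon))
  have hA' : (0 : ℝ) < A := by exact_mod_cast hA
  have hB' : (0 : ℝ) < B := by exact_mod_cast hB
  have ht : (0 : ℝ) < (A : ℝ) / B := by positivity
  have hAB : Real.sqrt (A * B) = B * Real.sqrt ((A : ℝ) / B) := sqrt_mul_eq hB
  have hmain : ∀ (δ : ℕ) (σ : ℝ), 2 ≤ δ → Reach δ σ →
      ∀ (F : MvPolynomial (Fin 3) ℂ) (e : ℕ) (m : Fin n → ℕ), F.IsHomogeneous e → 0 < e →
      F ≠ 0 → (∀ i, MultGE (p i) F (m i)) →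
      ((∑ j, L.get j * m (g j) : ℕ) : ℝ) ≤
        e * (B * (Real.sqrt σ * max 1 (((A : ℝ) / B) / σ))) := by
    intro δ σ hδ hσ F e m hF he hF0 hm
    refine (main_gen (K := ℂ) (fun d w => hf' p hp d w) hA hB hδ hσ hL hg he hF hF0 ?_).1
    unfold ptJ vIdeal
    rw [Ideal.mem_iInf]
    intro i
    exact mem_of_support (p := p i) (hm i)
  have hcone : ∀ (δ : ℕ) (σ c : ℝ), 2 ≤ δ → Reach δ σ →
      Real.sqrt σ * max 1 (((A : ℝ) / B) / σ) ≤ c * Real.sqrt ((A : ℝ) / B) →
      ∀ x ∈ curvCone p, ∑ j, (L.get j : ℝ) * x.2 (g j) ≤ c * Real.sqrt (A * B) * x.1 := by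
    intro δ σ c hδ hσ hc
    refine cone_le (fun j => Nat.cast_nonneg _) fun F e m hF he hF0 hm => ?_
    have h1 := hmain δ σ hδ hσ F e m hF he hF0 hm
    push_cast at h1
    refine h1.trans ?_
    refine mul_le_mul_of_nonneg_left ?_ (Nat.cast_nonneg e)
    rw [hAB]
    calc (B : ℝ) * (Real.sqrt σ * max 1 (((A : ℝ) / B) / σ)) ≤
        B * (c * Real.sqrt ((A : ℝ) / B)) := mul_le_mul_of_nonneg_left hc hB'.le
      _ = c * (B * Real.sqrt ((A : ℝ) / B)) := by ring
  refine ⟨fun h4 => ?_, fun k hk => ?_⟩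
  · obtain ⟨δ, σ, hδ, hσ, hβ⟩ := beta_mid (t := (A : ℝ) / B) (by
      rw [le_div_iff₀ hB']
      exact_mod_cast h4)
    exact hcone δ σ _ hδ hσ hβ
  · obtain ⟨δ, σ, hδ, hσ, hβ⟩ := hN k ((A : ℝ) / B) (by
      rw [le_div_iff₀ hB']
      exact_mod_cast hk)
    exact hcone δ σ _ (by omega) hσ hβ

end Pool.Agent.Results.MP_309968_ag.BoundaryRays
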