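import Mathlib
import Pool.Agent.H932R3.Cone
import Pool.Agent.H713R3.QNagata

set_option autoImplicit false

/-!
# Nef classes quasi-polynomially close to the boundary of the positive cone

For very general points of the plane and every set `T` of `t ≥ 10 ^ 150` of them, the class
`(1 + exp (-(log t) ^ 2 / 32)) √t H - ∑_{i ∈ T} E_i` is nonnegative on the closed cone of curves;
for every `k` and `t ≥ 5 ^ (16 k + 16)` so is `(1 + t ^ (-k)) √t H - ∑_{i ∈ T} E_i`.
-/

namespace Pool.Agent.Results.MP_309968_ag.QuasiPolynomialNef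

/-- The classes (in the coordinates degree, multiplicities) of the irreducible curves on the
blow-up of the plane at the points `p i = (p i 0 : p i 1 : 1)`: the class `(d; m)` of the proper
transform of an irreducible plane curve `F = 0` of degree `d` whose multiplicity at `p i` is exactly
`m i`, and the classes `(0; -e_i)` of the exceptional curves. -/
def curveClasses {n : ℕ} (p : Fin n → Fin 2 → ℂ) : Set (ℝ × (Fin n → ℝ)) :=
  {v : ℝ × (Fin n → ℝ) | ∃ (F : MvPolynomial (Fin 3) ℂ) (d : ℕ) (m : Fin n → ℕ),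
      F.IsHomogeneous d ∧ Irreducible F ∧
      (∀ i : Fin n,
        (∀ s ∈ (MvPolynomial.aeval
            ![(MvPolynomial.X 0 : MvPolynomial (Fin 2) ℂ) + MvPolynomial.C (p i 0),
              (MvPolynomial.X 1 : MvPolynomial (Fin 2) ℂ) + MvPolynomial.C (p i 1),
              (1 : MvPolynomial (Fin 2) ℂ)] F).support, m i ≤ s 0 + s 1) ∧
        (∃ s ∈ (MvPolynomial.aeval
            ![(MvPolynomial.X 0 : MvPolynomial (Fin 2) ℂ) + MvPolynomial.C (p i 0),
              (MvPolynomial.X 1 : MvPolynomial (Fin 2) ℂ) + MvPolynomial.C (p i 1),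
              (1 : MvPolynomial (Fin 2) ℂ)] F).support, s 0 + s 1 = m i)) ∧
      v = ((d : ℝ), fun i => (m i : ℝ))} ∪
    {v : ℝ × (Fin n → ℝ) | ∃ i : Fin n,
      v = ((0 : ℝ), (Pi.single i (-1 : ℝ) : Fin n → ℝ))}

/-- The closed cone of curves. -/
def curvCone {n : ℕ} (p : Fin n → Fin 2 → ℂ) : Set (ℝ × (Fin n → ℝ)) :=
  closure ((Submodule.span {c : ℝ // 0 ≤ c} (curveClasses p) : Set (ℝ × (Fin n → ℝ))))

theorem result (n : ℕ) :
    ∃ f : ℕ → MvPolynomial (Fin n × Fin 2) ℂ, (∀ j, f j ≠ 0) ∧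
      ∀ p : Fin n → Fin 2 → ℂ,
        (∀ j, MvPolynomial.eval (fun q : Fin n × Fin 2 => p q.1 q.2) (f j) ≠ 0) →
        ∀ x ∈ curvCone p, ∀ T : Finset (Fin n),
          (10 ^ 150 ≤ T.card →
            ∑ i ∈ T, x.2 i ≤ (1 + Real.exp (-((Real.log (T.card : ℝ)) ^ 2 / 32))) *
              Real.sqrt (T.card : ℝ) * x.1) ∧
          ∀ k : ℕ, 5 ^ (16 * k + 16) ≤ T.card →
            ∑ i ∈ T, x.2 i ≤ (1 + 1 / (T.card : ℝ) ^ k) * Real.sqrt (T.card : ℝ) * x.1 := by
  obtain ⟨f, hf, hf'⟩ := H932R3.exists_conds_sub (K := ℂ) n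
  refine ⟨f, hf, fun p hp x hx T => ?_⟩
  have key : ∀ k : ℕ, 5 ^ (16 * k + 16) ≤ T.card → ∀ x ∈ curvCone p, 0 ≤ x.1 ∧
      ∑ i ∈ T, x.2 i ≤ (1 + 1 / (T.card : ℝ) ^ k) * Real.sqrt (T.card : ℝ) * x.1 := by
    intro k hT x hx
    have hT0 : 0 < T.card := lt_of_lt_of_le (by positivity) hT
    have hTR : (0 : ℝ) < T.card := by exact_mod_cast hT0
    have hs0 : 0 < Real.sqrt T.card := Real.sqrt_pos.2 hTR
    have hss : Real.sqrt T.card * Real.sqrt T.card = T.card := Real.mul_self_sqrt hTR.le
    obtain ⟨c, hc⟩ : ∃ c, c = (1 + 1 / (T.card : ℝ) ^ k) * Real.sqrt (T.card : ℝ) := ⟨_, rfl⟩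
    rw [← hc]
    have hgen : ∀ v ∈ curveClasses p, 0 ≤ v.1 ∧ ∑ i ∈ T, v.2 i ≤ c * v.1 := by
      intro v hv
      rcases hv with ⟨F, d, m, hFd, hirr, hm, rfl⟩ | ⟨i, rfl⟩
      · simp only
        refine ⟨Nat.cast_nonneg d, ?_⟩
        have hd : 0 < d := by
          rcases Nat.eq_zero_or_pos d with rfl | hd
          · exfalso
            have h1 : F.totalDegree = 0 := by
              have := hFd.totalDegree_le
              omega
            rw [MvPolynomial.totalDegree_eq_zero_iff_eq_C] at h1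
            rw [h1] at hirr
            by_cases h2 : MvPolynomial.coeff 0 F = 0
            · rw [h2, map_zero] at hirr
              exact hirr.ne_zero rfl
            · exact hirr.not_isUnit ((isUnit_iff_ne_zero.2 h2).map MvPolynomial.C)
          · exact hd
        by_contra hcon
        push Not at hcon
        have hM : ∑ i ∈ T, (m i : ℝ) = ((∑ i ∈ T, m i : ℕ) : ℝ) := by push_cast; rfl
        rw [hM] at hcon
        refine hirr.ne_zero (hf' p hp T d m hd hT0 ?_ F hFd ?_)
        · refine H713R3.explicit_empt k hT (Nat.mul_pos hT0 hd) (Or.inr ?_)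
          have h1 := mul_le_mul_of_nonneg_right hcon.le hs0.le
          calc (1 + 1 / (T.card : ℝ) ^ k) * ((T.card * d : ℕ) : ℝ) =
                c * d * Real.sqrt T.card := by
                rw [hc]
                push_cast
                calc (1 + 1 / (T.card : ℝ) ^ k) * ((T.card : ℝ) * d) =
                    (1 + 1 / (T.card : ℝ) ^ k) * ((Real.sqrt T.card * Real.sqrt T.card) * d) := by
                      rw [hss]
                  _ = (1 + 1 / (T.card : ℝ) ^ k) * Real.sqrt T.card * d * Real.sqrt T.card := by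
                      ring
            _ ≤ _ := h1
        · unfold H932R3.ptJ H932R3.vIdeal
          rw [Ideal.mem_iInf]
          intro i
          exact H932R3.mem_of_support (p := p i) (hm i).1
      · simp only [mul_zero]
        refine ⟨le_rfl, Finset.sum_nonpos fun j _ => ?_⟩
        by_cases hji : j = i
        · rw [hji, Pi.single_eq_same]
          norm_num
        · rw [Pi.single_eq_of_ne hji]
    have hspan : ∀ v ∈ Submodule.span {c : ℝ // 0 ≤ c} (curveClasses p),
        0 ≤ v.1 ∧ ∑ i ∈ T, v.2 i ≤ c * v.1 := by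
      intro v hv
      refine Submodule.span_induction ?_ ?_ ?_ ?_ hv
      · exact fun v hv => hgen v hv
      · simp
      · intro a b _ _ ha hb
        simp only [Prod.snd_add, Pi.add_apply, Prod.fst_add, Finset.sum_add_distrib, mul_add]
        exact ⟨add_nonneg ha.1 hb.1, by linarith [ha.2, hb.2]⟩
      · rintro ⟨a, ha⟩ v _ hv
        have h1 : (⟨a, ha⟩ : {c : ℝ // 0 ≤ c}) • v = a • v := rfl
        rw [h1]
        simp only [Prod.smul_snd, Pi.smul_apply, Prod.smul_fst, smul_eq_mul, ← Finset.mul_sum]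
        have := mul_le_mul_of_nonneg_left hv.2 ha
        exact ⟨mul_nonneg ha hv.1, by linarith⟩
    have hA : IsClosed {v : ℝ × (Fin n → ℝ) | 0 ≤ v.1} :=
      isClosed_le continuous_const continuous_fst
    have hB : IsClosed {v : ℝ × (Fin n → ℝ) | ∑ i ∈ T, v.2 i ≤ c * v.1} := by
      refine isClosed_le ?_ ?_
      · exact continuous_finsetSum _ fun i _ => (continuous_apply i).comp continuous_snd
      · exact continuous_const.mul continuous_fst
    have hcl : IsClosed {v : ℝ × (Fin n → ℝ) | 0 ≤ v.1 ∧ ∑ i ∈ T, v.2 i ≤ c * v.1} :=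
      hA.inter hB
    exact closure_minimal (fun v hv => hspan v hv) hcl hx
  refine ⟨fun hT => ?_, fun k hk => (key k hk x hx).2⟩
  obtain ⟨k, hk1, hk2⟩ := H713R3.exists_exponent hT
  obtain ⟨h1, h2⟩ := key k hk1 x hx
  refine h2.trans ?_
  refine mul_le_mul_of_nonneg_right (mul_le_mul_of_nonneg_right ?_ (Real.sqrt_nonneg _)) h1
  have h3 : 1 / (T.card : ℝ) ^ k ≤ Real.exp (-((Real.log (T.card : ℝ)) ^ 2 / 32)) := by
    rw [Real.exp_neg, ← one_div]
    exact one_div_le_one_div_of_le (Real.exp_pos _) hk2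
  linarith

end Pool.Agent.Results.MP_309968_ag.QuasiPolynomialNef
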