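import Mathlib
import Pool.Agent.H852.NB.ConeLem

set_option autoImplicit false

/-!
# The cone of curves is asymptotically round where all multiplicities are small

For any number `n` of very general points of the plane, all weights `0 ≤ t i ≤ T` and every
integer `B ≥ 2`, the class `((1 + 1 / B) |t| + 5 B ^ 3 T) H - ∑ t i E_i` is nonnegative on the
closed cone of curves. Hence every class `x` of the closed cone of curves with all `x i ≤ δ x 0`
satisfies `√(∑ (x i)₊ ^ 2) ≤ (1 + 1 / B + 5 B ^ 3 δ) x 0`.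
-/

namespace Pool.Agent.Results.MP_309968_ag.RoundCone

/-- The classes (in the coordinates degree, multiplicities) of the irreducible curves on the
blow-up of the plane at the points `p i = (p i 0 : p i 1 : 1)`: the class `(d; m)` of the proper
transform of an irreducible plane curve `F = 0` of degree `d` whose multiplicity at `p i` is exactly
`m i`, and the classes `(0; -e_i)` of the exceptional curves. -/
def curveClasses {n : ℕ} (p : Fin n → Fin 2 → ℂ) : Set (ℝ × (Fin n → ℝ)) :=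
  {v : ℝ × (Fin n → ℝ) | ∃ (F : MvPolynomial (Fin 3) ℂ) (d : ℕ) (m : Fin n → ℕ),
      F.IsHomogeneous d ∧ Irreducible F ∧
      (∀ i : Fin n,
        (∀ s ∈ (MvPolynomial.aeval
            ![(MvPolynomial.X 0 : MvPolynomial (Fin 2) ℂ) + MvPolynomial.C (p i 0),
              (MvPolynomial.X 1 : MvPolynomial (Fin 2) ℂ) + MvPolynomial.C (p i 1),
              (1 : MvPolynomial (Fin 2) ℂ)] F).support, m i ≤ s 0 + s 1) ∧
        (∃ s ∈ (MvPolynomial.aeval
            ![(MvPolynomial.X 0 : MvPolynomial (Fin 2) ℂ) + MvPolynomial.C (p i 0),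
              (MvPolynomial.X 1 : MvPolynomial (Fin 2) ℂ) + MvPolynomial.C (p i 1),
              (1 : MvPolynomial (Fin 2) ℂ)] F).support, s 0 + s 1 = m i)) ∧
      v = ((d : ℝ), fun i => (m i : ℝ))} ∪
    {v : ℝ × (Fin n → ℝ) | ∃ i : Fin n,
      v = ((0 : ℝ), (Pi.single i (-1 : ℝ) : Fin n → ℝ))}

/-- The closed cone of curves. -/
def curvCone {n : ℕ} (p : Fin n → Fin 2 → ℂ) : Set (ℝ × (Fin n → ℝ)) :=
  closure ((Submodule.span {c : ℝ // 0 ≤ c} (curveClasses p) : Set (ℝ × (Fin n → ℝ))))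

theorem result (n : ℕ) :
    ∃ f : ℕ → MvPolynomial (Fin n × Fin 2) ℂ, (∀ j, f j ≠ 0) ∧
      ∀ p : Fin n → Fin 2 → ℂ,
        (∀ j, MvPolynomial.eval (fun q : Fin n × Fin 2 => p q.1 q.2) (f j) ≠ 0) →
        ∀ x ∈ curvCone p, ∀ B : ℕ, 2 ≤ B →
          (∀ (t : Fin n → ℝ) (T : ℝ), 0 ≤ T → (∀ i, 0 ≤ t i ∧ t i ≤ T) →
            ∑ i, t i * x.2 i ≤
              ((1 + 1 / (B : ℝ)) * Real.sqrt (∑ i, t i ^ 2) + 5 * (B : ℝ) ^ 3 * T) * x.1) ∧
          ∀ δ : ℝ, 0 ≤ δ → (∀ i, x.2 i ≤ δ * x.1) →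
            Real.sqrt (∑ i, (max (x.2 i) 0) ^ 2) ≤
              (1 + 1 / (B : ℝ) + 5 * (B : ℝ) ^ 3 * δ) * x.1 := by
  obtain ⟨f, hf, hf'⟩ := H852.QP.exists_familyQ (Fin n × Fin 2)
  refine ⟨f, hf, fun p hp x hx B hB => ?_⟩
  have hP := hf' _ hp
  have hBR : (2 : ℝ) ≤ B := by exact_mod_cast hB
  have key : ∀ (t : Fin n → ℝ) (T : ℝ), 0 ≤ T → (∀ i, 0 ≤ t i ∧ t i ≤ T) → 0 ≤ x.1 ∧
      ∑ i, t i * x.2 i ≤
        ((1 + 1 / (B : ℝ)) * Real.sqrt (∑ i, t i ^ 2) + 5 * (B : ℝ) ^ 3 * T) * x.1 := by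
    intro t T hT0 ht
    have hNf := H852.NB.round_nf (K := ℚ) hB hT0 (fun i => (ht i).1) (fun i => (ht i).2)
    obtain ⟨c, hc⟩ : ∃ c, c = (1 + 1 / (B : ℝ)) * Real.sqrt (∑ i, t i ^ 2) +
      5 * (B : ℝ) ^ 3 * T := ⟨_, rfl⟩
    rw [← hc] at hNf ⊢
    have hgen : ∀ v ∈ curveClasses p, 0 ≤ v.1 ∧ ∑ i, t i * v.2 i ≤ c * v.1 := by
      intro v hv
      rcases hv with ⟨F, d, m, hFd, hirr, hm, rfl⟩ | ⟨i, rfl⟩
      · exact ⟨Nat.cast_nonneg d,
          H852.NB.curve_le hNf hP hFd hirr.ne_zero (fun i => (hm i).1)⟩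
      · simp only [mul_zero]
        refine ⟨le_rfl, Finset.sum_nonpos fun j _ => ?_⟩
        by_cases hji : j = i
        · rw [hji, Pi.single_eq_same]
          have := (ht i).1
          linarith
        · rw [Pi.single_eq_of_ne hji, mul_zero]
    have hspan : ∀ v ∈ Submodule.span {c : ℝ // 0 ≤ c} (curveClasses p),
        0 ≤ v.1 ∧ ∑ i, t i * v.2 i ≤ c * v.1 := by
      intro v hv
      refine Submodule.span_induction ?_ ?_ ?_ ?_ hv
      · exact fun v hv => hgen v hv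
      · simp
      · intro a b _ _ ha hb
        simp only [Prod.snd_add, Pi.add_apply, Prod.fst_add, Finset.sum_add_distrib, mul_add]
        exact ⟨add_nonneg ha.1 hb.1, by linarith [ha.2, hb.2]⟩
      · rintro ⟨a, ha⟩ v _ hv
        have h1 : (⟨a, ha⟩ : {c : ℝ // 0 ≤ c}) • v = a • v := rfl
        rw [h1]
        have h2 : ∑ i, t i * (a • v).2 i = a * ∑ i, t i * v.2 i := by
          rw [Finset.mul_sum]
          refine Finset.sum_congr rfl fun i _ => ?_
          simp only [Prod.smul_snd, Pi.smul_apply, smul_eq_mul]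
          ring
        rw [h2]
        simp only [Prod.smul_fst, smul_eq_mul]
        have := mul_le_mul_of_nonneg_left hv.2 ha
        exact ⟨mul_nonneg ha hv.1, by linarith⟩
    have hA : IsClosed {v : ℝ × (Fin n → ℝ) | 0 ≤ v.1} :=
      isClosed_le continuous_const continuous_fst
    have hB' : IsClosed {v : ℝ × (Fin n → ℝ) | ∑ i, t i * v.2 i ≤ c * v.1} := by
      refine isClosed_le ?_ ?_
      · exact continuous_finsetSum _ fun i _ =>
          continuous_const.mul ((continuous_apply i).comp continuous_snd)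
      · exact continuous_const.mul continuous_fst
    have hcl : IsClosed {v : ℝ × (Fin n → ℝ) | 0 ≤ v.1 ∧ ∑ i, t i * v.2 i ≤ c * v.1} :=
      hA.inter hB'
    exact closure_minimal (fun v hv => hspan v hv) hcl hx
  refine ⟨fun t T hT0 ht => (key t T hT0 ht).2, fun δ hδ hx1 => ?_⟩
  have hx0 : 0 ≤ x.1 := (key 0 0 le_rfl (fun i => ⟨le_rfl, le_rfl⟩)).1
  have h1 := (key (fun i => max (x.2 i) 0) (δ * x.1) (by positivity) (fun i =>
    ⟨le_max_right _ _, max_le (hx1 i) (by positivity)⟩)).2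
  have h2 : ∑ i, max (x.2 i) 0 * x.2 i = ∑ i, (max (x.2 i) 0) ^ 2 := by
    refine Finset.sum_congr rfl fun i _ => ?_
    rcases le_total (x.2 i) 0 with h | h
    · rw [max_eq_right h]
      ring
    · rw [max_eq_left h]
      ring
  rw [h2] at h1
  obtain ⟨Y, hY⟩ : ∃ Y, Y = Real.sqrt (∑ i, (max (x.2 i) 0) ^ 2) := ⟨_, rfl⟩
  have hYY : Y ^ 2 = ∑ i, (max (x.2 i) 0) ^ 2 := by
    rw [hY]
    exact Real.sq_sqrt (Finset.sum_nonneg fun i _ => sq_nonneg _)
  have hY0 : 0 ≤ Y := by rw [hY]; exact Real.sqrt_nonneg _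
  rw [← hY, ← hYY] at h1
  rw [← hY]
  by_contra hcon
  push Not at hcon
  obtain ⟨a, ha⟩ : ∃ a : ℝ, a = 1 + 1 / (B : ℝ) := ⟨_, rfl⟩
  obtain ⟨b, hb⟩ : ∃ b : ℝ, b = 5 * (B : ℝ) ^ 3 * δ := ⟨_, rfl⟩
  have ha1 : 1 ≤ a := by
    rw [ha]
    have : 0 ≤ 1 / (B : ℝ) := by positivity
    linarith
  have hb0 : 0 ≤ b := by rw [hb]; positivity
  rw [← ha, ← hb] at hcon
  have h3 : 5 * (B : ℝ) ^ 3 * (δ * x.1) = b * x.1 := by rw [hb]; ring
  rw [← ha, h3] at h1
  -- `Y² ≤ (a Y + b x₀) x₀` and `(a + b) x₀ < Y`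
  have h4 : x.1 ≤ (a + b) * x.1 := by nlinarith
  have hYx : x.1 ≤ Y := by linarith
  have hYpos : 0 < Y := lt_of_le_of_lt (by positivity) hcon
  have h5 : (a + b) * x.1 * Y < Y * Y := mul_lt_mul_of_pos_right hcon hYpos
  have h6 : b * x.1 * x.1 ≤ b * x.1 * Y := mul_le_mul_of_nonneg_left hYx (by positivity)
  nlinarith

end Pool.Agent.Results.MP_309968_ag.RoundCone
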