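import Mathlib
import Pool.Agent.H932R3.Cone
import Pool.Agent.H713R3.PK.Comp
import Pool.Agent.H713R3.PK.Cells
import Pool.Agent.H713R3.PK.Part
import Pool.Agent.H713R3.PK.Explicit
import Pool.Agent.H713R3.PK.Gen

set_option autoImplicit false

/-!
# The nef cone of very general blow-ups of the plane, classes with small weights

For all `n` and `n` very general points of the plane, every real class `D = d H - ∑ a i E i` with
`d > 0`, `a i ≥ 0`, `D ^ 2 > 0` and `a i ≤ (D ^ 2) ^ 2 / (1000 d ^ 3)` for all `i` is nef.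
-/

namespace Pool.Agent.Results.MP_309968_ag.SmallWeightsNef

/-- The classes (in the coordinates degree, multiplicities) of the irreducible curves on the
blow-up of the plane at the points `p i = (p i 0 : p i 1 : 1)`: the class `(d; m)` of the proper
transform of an irreducible plane curve `F = 0` of degree `d` whose multiplicity at `p i` is exactly
`m i`, and the classes `(0; -e_i)` of the exceptional curves. -/
def curveClasses {n : ℕ} (p : Fin n → Fin 2 → ℂ) : Set (ℝ × (Fin n → ℝ)) :=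
  {v : ℝ × (Fin n → ℝ) | ∃ (F : MvPolynomial (Fin 3) ℂ) (d : ℕ) (m : Fin n → ℕ),
      F.IsHomogeneous d ∧ Irreducible F ∧
      (∀ i : Fin n,
        (∀ s ∈ (MvPolynomial.aeval
            ![(MvPolynomial.X 0 : MvPolynomial (Fin 2) ℂ) + MvPolynomial.C (p i 0),
              (MvPolynomial.X 1 : MvPolynomial (Fin 2) ℂ) + MvPolynomial.C (p i 1),
              (1 : MvPolynomial (Fin 2) ℂ)] F).support, m i ≤ s 0 + s 1) ∧
        (∃ s ∈ (MvPolynomial.aeval
            ![(MvPolynomial.X 0 : MvPolynomial (Fin 2) ℂ) + MvPolynomial.C (p i 0),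
              (MvPolynomial.X 1 : MvPolynomial (Fin 2) ℂ) + MvPolynomial.C (p i 1),
              (1 : MvPolynomial (Fin 2) ℂ)] F).support, s 0 + s 1 = m i)) ∧
      v = ((d : ℝ), fun i => (m i : ℝ))} ∪
    {v : ℝ × (Fin n → ℝ) | ∃ i : Fin n,
      v = ((0 : ℝ), (Pi.single i (-1 : ℝ) : Fin n → ℝ))}

/-- The closed cone of curves. -/
def curvCone {n : ℕ} (p : Fin n → Fin 2 → ℂ) : Set (ℝ × (Fin n → ℝ)) :=
  closure ((Submodule.span {c : ℝ // 0 ≤ c} (curveClasses p) : Set (ℝ × (Fin n → ℝ))))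

theorem result (n : ℕ) :
    ∃ f : ℕ → MvPolynomial (Fin n × Fin 2) ℂ, (∀ j, f j ≠ 0) ∧
      ∀ p : Fin n → Fin 2 → ℂ,
        (∀ j, MvPolynomial.eval (fun q : Fin n × Fin 2 => p q.1 q.2) (f j) ≠ 0) →
        ∀ (d : ℝ) (a : Fin n → ℝ), 0 < d → (∀ i, 0 ≤ a i) → ∑ i, a i ^ 2 < d ^ 2 →
          (∀ i, 1000 * d ^ 3 * a i ≤ (d ^ 2 - ∑ i, a i ^ 2) ^ 2) →
          ∀ x ∈ curvCone p, 0 ≤ d * x.1 - ∑ i, a i * x.2 i := by
  have hcells := H713R3.PK.taskCells H713R3.PK.taskComp H713R3.PK.taskSingle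
  have hrules := H713R3.PK.taskPart hcells H713R3.PK.taskSingle ℂ
  obtain ⟨f, hf, hf'⟩ := H713R3.PK.taskGen ℂ n
  refine ⟨f, hf, fun p hp d a hd0 ha0 hsum ha x hx => ?_⟩
  have hd : 0 ≤ d := hd0.le
  obtain ⟨b, hb⟩ : ∃ b : Fin n → ℝ, b = fun i => a i / d := ⟨_, rfl⟩
  have hba : ∀ i, d * b i = a i := fun i => by
    rw [hb]
    field_simp
  have hS : ∑ i, a i ^ 2 = d ^ 2 * ∑ i, b i ^ 2 := by
    rw [Finset.mul_sum]
    exact Finset.sum_congr rfl fun i _ => by rw [← hba i]; ring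
  obtain ⟨ε, hεd⟩ : ∃ ε, ε = 1 - ∑ i, b i ^ 2 := ⟨_, rfl⟩
  have hε1 : ε ≤ 1 := by
    rw [hεd]
    have : 0 ≤ ∑ i, b i ^ 2 := Finset.sum_nonneg fun i _ => sq_nonneg _
    linarith
  have hd2 : 0 < d ^ 2 := by positivity
  have hD : d ^ 2 - ∑ i, a i ^ 2 = d ^ 2 * ε := by
    rw [hS, hεd]
    ring
  have hε : 0 < ε := by
    have h1 : 0 < d ^ 2 * ε := by
      rw [← hD]
      linarith
    exact (mul_pos_iff_of_pos_left hd2).1 h1
  have hb1 : ∀ i, 0 ≤ b i ∧ b i ≤ ε ^ 2 / 1000 := by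
    intro i
    refine ⟨by rw [hb]; exact div_nonneg (ha0 i) hd, ?_⟩
    have h1 := ha i
    rw [hD, ← hba i] at h1
    have h2 : d ^ 4 * (1000 * b i) ≤ d ^ 4 * ε ^ 2 := by
      calc d ^ 4 * (1000 * b i) = 1000 * d ^ 3 * (d * b i) := by ring
        _ ≤ (d ^ 2 * ε) ^ 2 := h1
        _ = d ^ 4 * ε ^ 2 := by ring
    have h3 : 1000 * b i ≤ ε ^ 2 := le_of_mul_le_mul_left h2 (by positivity)
    linarith
  have hgood := H713R3.PK.pack_explicit hrules hε hε1 hb1 (by rw [hεd]; linarith)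
  have hgen : ∀ v ∈ curveClasses p, ∑ i, b i * v.2 i ≤ v.1 := by
    intro v hv
    rcases hv with ⟨F, e, m, hFe, hirr, hm, rfl⟩ | ⟨i, rfl⟩
    · simp only
      by_contra hcon
      push Not at hcon
      refine hirr.ne_zero (hf' p hp b hgood m e hcon F hFe ?_)
      unfold H932R3.ptJ H932R3.vIdeal
      rw [Ideal.mem_iInf]
      intro i
      exact H932R3.mem_of_support (p := p i) (hm i).1
    · simp only
      refine Finset.sum_nonpos fun j _ => ?_
      by_cases hji : j = i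
      · rw [hji, Pi.single_eq_same]
        have := (hb1 i).1
        linarith
      · rw [Pi.single_eq_of_ne hji, mul_zero]
  have hspan : ∀ v ∈ Submodule.span {c : ℝ // 0 ≤ c} (curveClasses p),
      ∑ i, b i * v.2 i ≤ v.1 := by
    intro v hv
    refine Submodule.span_induction ?_ ?_ ?_ ?_ hv
    · exact fun v hv => hgen v hv
    · simp
    · intro u v _ _ hu hv
      simp only [Prod.snd_add, Pi.add_apply, Prod.fst_add, mul_add, Finset.sum_add_distrib]
      linarith
    · rintro ⟨c, hc⟩ v _ hv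
      have h1 : (⟨c, hc⟩ : {c : ℝ // 0 ≤ c}) • v = c • v := rfl
      rw [h1]
      simp only [Prod.smul_snd, Pi.smul_apply, Prod.smul_fst, smul_eq_mul]
      have h2 : ∑ i, b i * (c * v.2 i) = c * ∑ i, b i * v.2 i := by
        rw [Finset.mul_sum]
        exact Finset.sum_congr rfl fun i _ => by ring
      rw [h2]
      exact mul_le_mul_of_nonneg_left hv hc
  have hcl : IsClosed {v : ℝ × (Fin n → ℝ) | ∑ i, b i * v.2 i ≤ v.1} := by
    refine isClosed_le ?_ continuous_fst
    exact continuous_finsetSum _ fun i _ =>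
      continuous_const.mul ((continuous_apply i).comp continuous_snd)
  have hx1 : ∑ i, b i * x.2 i ≤ x.1 := closure_minimal (fun v hv => hspan v hv) hcl hx
  have h3 : ∑ i, a i * x.2 i = d * ∑ i, b i * x.2 i := by
    rw [Finset.mul_sum]
    exact Finset.sum_congr rfl fun i _ => by rw [← hba i]; ring
  rw [h3]
  have := mul_le_mul_of_nonneg_left hx1 hd
  linarith

end Pool.Agent.Results.MP_309968_ag.SmallWeightsNef
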